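import Pool.Agent.J4.H92.NU.Main

/-!
# Twist regions with almost the same number of crossings: the normalised bracket
-/

set_option autoImplicit false

namespace Pool.Agent.J4.H92.NU

open Finset LaurentPolynomial Pool.Agent.H891R2.Jones Pool.Agent.H891R2.MT
open Pool.Agent.J4.H92.HT

/-- the conclusion for all diagrams with the same bracket -/
theorem conclude {Q : Type} [Fintype Q] [DecidableEq Q] [Nonempty Q] (D : Diagram Q) (U : UDiagram Q)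
    (hD : Orients D U) (K : ℝ) (A : ℂˣ) (hA : ‖(A : ℂ)‖ = 1) (hd : ‖evA A (-T 2 - T (-2))‖ ≤ 1)
    (hK : max K 1 < ‖evA A U.std.bracket‖) :
    (∃ A : ℂˣ, ‖(A : ℂ)‖ = 1 ∧ K < ‖evA A D.fPoly‖) ∧ K < (coeffSum D.fPoly : ℝ) ∧
      ∀ (ε m : ℤ) (j : ℕ), ε = 1 ∨ ε = -1 →
        D.fPoly ≠ LaurentPolynomial.C ε * T m * (-T 2 - T (-2)) ^ j := by
  rw [← norm_fPoly A hA D U hD] at hK
  refine ⟨⟨A, hA, lt_of_le_of_lt (le_max_left _ _) hK⟩,
    lt_of_le_of_lt (le_max_left _ _) (hK.trans_le (norm_evA_le A hA _)), fun ε k j hε h => ?_⟩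
  have h1 : 1 < ‖evA A D.fPoly‖ := lt_of_le_of_lt (le_max_right _ _) hK
  have h2 : ‖evA A D.fPoly‖ ≤ 1 := by
    rw [h, map_mul, map_mul, evA_C, evA_T, map_pow, norm_mul, norm_mul, norm_pow,
      Units.val_zpow_eq_zpow_val, norm_zpow, hA, one_zpow, mul_one]
    have h3 : ‖((ε : ℤ) : ℂ)‖ = 1 := by
      rcases hε with rfl | rfl <;> simp
    rw [h3, one_mul]
    exact pow_le_one₀ (norm_nonneg _) hd
  linarith

theorem final (k : ℕ) (K : ℝ) : ∃ C : ℕ, 0 < C ∧ ∀ (Γ : Ribbon k) (P : Finset (Fin k)),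
    P ≠ Finset.univ → Γ.comps P + P.card = Γ.verts →
    (∀ e f : Fin k, e ∉ P → f ∉ P → Γ.comps ({e, f} : Finset (Fin k))ᶜ = 1) →
    ∀ (n : Fin k → ℤ) (N : ℝ), (C : ℝ) ≤ N →
    (∀ e, ∃ m : ℤ, (Even m ↔ e ∈ P) ∧ |n e - m * N| ≤ N / C) →
    ∀ D : Diagram (Ribbon.Pt n), Orients D (Γ.link n) →
      (∃ A : ℂˣ, ‖(A : ℂ)‖ = 1 ∧ K < ‖evA A D.fPoly‖) ∧ K < (coeffSum D.fPoly : ℝ) ∧
      ∀ (ε m : ℤ) (j : ℕ), ε = 1 ∨ ε = -1 →
        D.fPoly ≠ LaurentPolynomial.C ε * T m * (-T 2 - T (-2)) ^ j := by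
  obtain ⟨C, hC0, hC⟩ := bracket_large k (max K 1)
  refine ⟨C, hC0, fun Γ P hP hPf hΓ n N hN hn D hD => ?_⟩
  have hk : 0 < k := by
    rcases Nat.eq_zero_or_pos k with h | h
    · subst h
      exact absurd (Finset.eq_univ_iff_forall.2 fun x => x.elim0) hP
    · exact h
  have : Nonempty (Ribbon.Pt n) := ⟨⟨⟨0, hk⟩, 0, true⟩⟩
  obtain ⟨A, hA, hd, hK⟩ := hC Γ P hP hPf (fun e f he hf => by
    have h1 : (Finset.univ.erase e).erase f = ({e, f} : Finset (Fin k))ᶜ := by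
      ext x
      simp only [Finset.mem_erase, Finset.mem_univ, Finset.mem_compl, Finset.mem_insert,
        Finset.mem_singleton, not_or]
      tauto
    rw [h1]
    exact hΓ e f he hf) n N hN hn
  exact conclude D _ hD K A hA hd hK

end Pool.Agent.J4.H92.NU
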