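import Pool.Agent.J4.H92.NU.Rib
import Pool.Agent.J4.H92.HT.Final

/-!
# Twist regions with almost the same number of crossings
-/

set_option autoImplicit false

namespace Pool.Agent.J4.H92.NU

open Finset LaurentPolynomial Pool.Agent.H891R2.Jones Pool.Agent.H891R2.MT
open Pool.Agent.J4.H92.HT

/-- products of numbers which are close to each other -/
theorem prod_diff {ι : Type} [DecidableEq ι] (F : Finset ι) (a b : ι → ℂ) (ε : ℝ) (hε : 0 ≤ ε)
    (ha : ∀ i, ‖a i‖ ≤ 2) (hb : ∀ i, ‖b i‖ ≤ 2) (hab : ∀ i, ‖a i - b i‖ ≤ ε) :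
    ‖∏ i ∈ F, a i - ∏ i ∈ F, b i‖ ≤ F.card * 2 ^ F.card * ε ∧ ‖∏ i ∈ F, b i‖ ≤ 2 ^ F.card := by
  induction F using Finset.induction_on with
  | empty => simp
  | insert i F hi ih =>
    obtain ⟨h1, h2⟩ := ih
    rw [Finset.prod_insert hi, Finset.prod_insert hi, Finset.card_insert_of_notMem hi]
    have h3 : a i * ∏ x ∈ F, a x - b i * ∏ x ∈ F, b x =
        a i * (∏ x ∈ F, a x - ∏ x ∈ F, b x) + (a i - b i) * ∏ x ∈ F, b x := by ring
    constructor
    · rw [h3]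
      refine (norm_add_le _ _).trans ?_
      rw [norm_mul, norm_mul]
      have h4 := mul_le_mul (ha i) h1 (norm_nonneg _) (by norm_num)
      have h5 := mul_le_mul (hab i) h2 (norm_nonneg _) hε
      have h6 : (0 : ℝ) ≤ 2 ^ F.card * ε := by positivity
      push_cast
      rw [pow_succ]
      nlinarith
    · rw [norm_mul, pow_succ]
      have := mul_le_mul (hb i) h2 (norm_nonneg _) (by norm_num)
      linarith

theorem prod_le {ι : Type} [DecidableEq ι] (F : Finset ι) (a : ι → ℂ) (ha : ∀ i, ‖a i‖ ≤ 2) :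
    ‖∏ i ∈ F, a i‖ ≤ 2 ^ F.card := (prod_diff F a a 0 le_rfl ha ha (by simp)).2

theorem evA_dd (A : ℂˣ) : evA A (-T 2 - T (-2)) = evA A Pool.Agent.H891R2.RF.dd := rfl

/-- the value of the bracket -/
theorem value {k : ℕ} (Γ : Ribbon k) (hk : 0 < k) (n : Fin k → ℤ) (A : ℂˣ) (δ : ℂ)
    (hδ : evA A (-T 2 - T (-2)) = δ) (z : Fin k → ℂ)
    (hz : ∀ e, (-1 : ℂ) ^ (n e).natAbs * ((A ^ (-4 * n e) : ℂˣ) : ℂ) = z e) :
    δ ^ (k + 1) * evA A (Γ.link n).std.bracket = (∏ e, ((A ^ n e : ℂˣ) : ℂ)) *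
      ∑ S : Finset (Fin k), (∏ e ∈ Sᶜ, (z e - 1)) * δ ^ (Γ.curves S + S.card) := by
  have h1 := congrArg (evA A) (state_sum Γ hk n)
  rw [map_mul, map_pow, hδ, map_sum] at h1
  rw [h1, Finset.mul_sum]
  refine Finset.sum_congr rfl fun S _ => ?_
  rw [map_mul, map_mul, map_pow, hδ, map_prod, map_prod]
  have h2 : ∀ e, evA A (C ((-1) ^ (n e).natAbs) * T (-3 * n e) - T (n e)) =
      (z e - 1) * ((A ^ n e : ℂˣ) : ℂ) := by
    intro e
    rw [map_sub, evA_row, evA_T, hz]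
    ring
  simp only [h2, evA_T]
  rw [Finset.prod_mul_distrib, ← Finset.prod_mul_prod_compl S (fun e => ((A ^ n e : ℂˣ) : ℂ))]
  ring

/-- the main estimate -/
theorem large {k : ℕ} (Γ : Ribbon k) (P : Finset (Fin k)) (hP : P ≠ Finset.univ)
    (hPf : Γ.comps P + P.card = Γ.verts)
    (hΓ : ∀ e f : Fin k, e ∉ P → f ∉ P → Γ.comps ((Finset.univ.erase e).erase f) = 1) (n : Fin k → ℤ)
    (A : ℂˣ)
    (hA : ‖(A : ℂ)‖ = 1) (δ : ℝ) (hδ : evA A (-T 2 - T (-2)) = (δ : ℂ)) (hδ1 : 4 ^ k * |δ| ≤ 1 / 4)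
    (hδ0 : δ ≠ 0) (z : Fin k → ℂ) (ε : ℝ) (hε : 0 ≤ ε) (hε1 : k * 4 ^ k * ε ≤ 1 / 4)
    (hz : ∀ e, (-1 : ℂ) ^ (n e).natAbs * ((A ^ (-4 * n e) : ℂˣ) : ℂ) = z e)
    (hz1 : ∀ e, ‖z e‖ = 1) (hz2 : ∀ e ∉ P, ‖z e + 1‖ ≤ ε) (hz5 : ∀ e ∈ P, ‖z e - 1‖ ≤ ε) :
    1 / 2 ≤ |δ| * ‖evA A (Γ.link n).std.bracket‖ := by
  classical
  have hδn : 0 < |δ| := abs_pos.2 hδ0
  have h4k : (1 : ℝ) ≤ 4 ^ k := one_le_pow₀ (by norm_num)
  have hδle : |δ| ≤ 1 := by nlinarith
  obtain ⟨V, hV⟩ : ∃ V, V = Γ.verts := ⟨_, rfl⟩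
  -- `V ≤ k`
  have hr := rk_isRk Γ
  obtain ⟨e0, he0⟩ : ∃ e, e ∉ P := by
    by_contra hcon
    push Not at hcon
    exact hP (Finset.eq_univ_iff_forall.2 hcon)
  have hk : 0 < k := Fin.pos e0
  have hc1 : ∀ e, e ∉ P → Γ.comps (Finset.univ.erase e) = 1 := by
    intro e he
    have := hΓ e e he he
    rwa [Finset.erase_eq_of_notMem (Finset.notMem_erase e _)] at this
  have hcu : Γ.comps Finset.univ = 1 := by
    have h1 := T3a.comps_erase Γ Finset.univ e0 (Finset.mem_univ _)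
    rw [hc1 e0 he0] at h1
    have h2 : 0 < Γ.comps Finset.univ := by
      unfold Ribbon.comps
      have : Nonempty (Quot (fun x y : Fin k × Bool => Γ.rot x = y ∨ (x.1 ∈ Finset.univ ∧ y = flip x))) :=
        ⟨Quot.mk _ (e0, true)⟩
      exact Nat.card_pos
    omega
  have hVk : V ≤ k := by
    have h1 := hr.le_card (Finset.univ.erase e0)
    unfold rk at h1
    rw [hc1 e0 he0, Finset.card_erase_of_mem (Finset.mem_univ _), Finset.card_univ, Fintype.card_fin] at h1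
    omega
  -- the value at the real point
  obtain ⟨s, hs⟩ : ∃ s : Fin k → ℤ, s = fun e => if e ∈ P then 1 else -1 := ⟨_, rfl⟩
  have hsP : ∀ e ∈ P, s e = 1 := fun e he => by rw [hs]; simp [he]
  have hsn : ∀ e ∉ P, s e = -1 := fun e he => by rw [hs]; simp [he]
  obtain ⟨J, hJ⟩ : ∃ J : ℝ, J = I (Finset.univ : Finset (Fin k)) (rk Γ) (fun e => (s e : ℝ)) := ⟨_, rfl⟩
  have hJ0 : J ≠ 0 := by
    have := pos_of_indep _ Finset.univ P (rk Γ) (fun e => (s e : ℝ)) rfl (Finset.subset_univ _) hr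
      (fun e he => by rw [hsP e he]; norm_num) (fun e _ he => by rw [hsn e he]; norm_num)
      (by unfold rk; omega) (by
      intro e _ f _ he hf
      unfold rk
      rw [hΓ e f he hf, hcu])
    rw [← hJ] at this
    intro h
    rw [h, mul_zero] at this
    exact lt_irrefl _ this
  obtain ⟨F, hF⟩ : ∃ F : Finset (Finset (Fin k)), F = Finset.univ.filter (fun S => rk Γ S = S.card) := ⟨_, rfl⟩
  have hJF : J = ((∑ S ∈ F, ∏ e ∈ Sᶜ, (s e - 1) : ℤ) : ℝ) := by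
    rw [hJ, hF]
    unfold I K
    push_cast
    rw [Finset.powerset_univ, Finset.sum_filter]
    refine Finset.sum_congr rfl fun S _ => ?_
    by_cases h : rk Γ S = S.card
    · rw [if_pos h, if_pos h, ← Finset.compl_eq_univ_sdiff]
    · rw [if_neg h, if_neg h]
  have hJ1 : 1 ≤ |J| := by
    rw [hJF] at hJ0 ⊢
    have h2 : (∑ S ∈ F, ∏ e ∈ Sᶜ, (s e - 1) : ℤ) ≠ 0 := fun h => hJ0 (by rw [h]; simp)
    exact_mod_cast Int.one_le_abs h2
  -- the sum
  have hval := value Γ hk n A δ hδ z hz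
  have hprod : ‖∏ e, ((A ^ n e : ℂˣ) : ℂ)‖ = 1 := by
    rw [norm_prod]
    refine Finset.prod_eq_one fun e _ => ?_
    rw [Units.val_zpow_eq_zpow_val, norm_zpow, hA, one_zpow]
  have hsum : ∑ S : Finset (Fin k), (∏ e ∈ Sᶜ, (z e - 1)) * (δ : ℂ) ^ (Γ.curves S + S.card) =
      (δ : ℂ) ^ V * ∑ S : Finset (Fin k), (∏ e ∈ Sᶜ, (z e - 1)) * (δ : ℂ) ^ (Γ.curves S + S.card - V) := by
    rw [Finset.mul_sum]
    refine Finset.sum_congr rfl fun S _ => ?_
    have h1 := verts_le Γ S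
    have h2 : Γ.curves S + S.card = V + (Γ.curves S + S.card - V) := by omega
    conv_lhs => rw [h2, pow_add]
    ring
  have hcardle : ∀ S : Finset (Fin k), S.card ≤ k := fun S => card_finset_fin_le S
  have hz3 : ∀ e, ‖z e - 1‖ ≤ 2 := by
    intro e
    refine (norm_sub_le _ _).trans ?_
    rw [hz1, norm_one]
    norm_num
  have hz4 : ∀ e, ‖(z e - 1) - ((s e : ℂ) - 1)‖ ≤ ε := by
    intro e
    have : (z e - 1) - ((s e : ℂ) - 1) = z e - s e := by ring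
    rw [this]
    by_cases he : e ∈ P
    · rw [hsP e he]
      simpa using hz5 e he
    · rw [hsn e he]
      simpa using hz2 e he
  have hs3 : ∀ e, ‖(s e : ℂ) - 1‖ ≤ 2 := by
    intro e
    by_cases he : e ∈ P
    · rw [hsP e he]
      simp
    · rw [hsn e he]
      norm_num
  obtain ⟨Q, hQ⟩ : ∃ Q : ℂ, Q = ∑ S : Finset (Fin k), (∏ e ∈ Sᶜ, (z e - 1)) *
    (δ : ℂ) ^ (Γ.curves S + S.card - V) := ⟨_, rfl⟩
  have hQJ : ‖Q - J‖ ≤ 1 / 2 := by
    have e1 : Q - J = ∑ S : Finset (Fin k), ((∏ e ∈ Sᶜ, (z e - 1)) * (δ : ℂ) ^ (Γ.curves S + S.card - V) -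
        if rk Γ S = S.card then ∏ e ∈ Sᶜ, ((s e : ℂ) - 1) else 0) := by
      rw [Finset.sum_sub_distrib, ← hQ, hJF, hF, Finset.sum_filter]
      congr 1
      push_cast
      refine Finset.sum_congr rfl fun S _ => ?_
      split_ifs <;> simp
    rw [e1]
    refine (norm_sum_le _ _).trans ?_
    have e2 : ∀ S : Finset (Fin k), ‖(∏ e ∈ Sᶜ, (z e - 1)) * (δ : ℂ) ^ (Γ.curves S + S.card - V) -
        if rk Γ S = S.card then ∏ e ∈ Sᶜ, ((s e : ℂ) - 1) else 0‖ ≤ k * 2 ^ k * ε + 2 ^ k * |δ| := by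
      intro S
      have hp : (2 : ℝ) ^ (Sᶜ).card ≤ 2 ^ k := pow_le_pow_right₀ (by norm_num) (hcardle _)
      have hcs : ((Sᶜ).card : ℝ) ≤ k := by exact_mod_cast hcardle _
      by_cases h : rk Γ S = S.card
      · rw [if_pos h]
        have h1 := (min_iff Γ S).2 h
        rw [h1, hV, Nat.sub_self, pow_zero, mul_one]
        have h2 := (prod_diff Sᶜ (fun e => z e - 1) (fun e => (s e : ℂ) - 1) ε hε hz3 hs3 hz4).1
        have h3 : ((Sᶜ).card : ℝ) * 2 ^ (Sᶜ).card * ε ≤ k * 2 ^ k * ε :=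
          mul_le_mul_of_nonneg_right (mul_le_mul hcs hp (by positivity) (by positivity)) hε
        have h4 : 0 ≤ 2 ^ k * |δ| := by positivity
        linarith
      · rw [if_neg h, sub_zero, norm_mul, norm_pow, Complex.norm_real, Real.norm_eq_abs]
        have h1 := verts_le Γ S
        have h2 : Γ.curves S + S.card ≠ V := by
          rw [hV]
          exact fun h3 => h ((min_iff Γ S).1 h3)
        have h3 : |δ| ^ (Γ.curves S + S.card - V) ≤ |δ| ^ 1 :=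
          pow_le_pow_of_le_one hδn.le hδle (by omega)
        rw [pow_one] at h3
        have h4 := mul_le_mul ((prod_le Sᶜ (fun e => z e - 1) hz3).trans hp) h3 (by positivity) (by positivity)
        have h5 : 0 ≤ k * 2 ^ k * ε := by positivity
        linarith
    refine (Finset.sum_le_sum fun S _ => e2 S).trans ?_
    rw [Finset.sum_const, Finset.card_univ, Fintype.card_finset, Fintype.card_fin, nsmul_eq_mul]
    push_cast
    have e3 : (2 : ℝ) ^ k * 2 ^ k = 4 ^ k := by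
      rw [← mul_pow]
      norm_num
    have e4 : (2 : ℝ) ^ k * (k * 2 ^ k * ε + 2 ^ k * |δ|) = k * (2 ^ k * 2 ^ k) * ε + (2 ^ k * 2 ^ k) * |δ| := by
      ring
    rw [e4, e3]
    linarith
  have hQ1 : 1 / 2 ≤ ‖Q‖ := by
    have h1 : ‖(J : ℂ)‖ ≤ ‖Q‖ + ‖Q - J‖ := by
      have := norm_sub_le Q (Q - J)
      rwa [sub_sub_cancel] at this
    rw [Complex.norm_real, Real.norm_eq_abs] at h1
    linarith
  -- conclusion
  rw [hsum, ← hQ] at hval
  have h1 := congrArg norm hval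
  rw [norm_mul, norm_mul, norm_mul, hprod, one_mul, norm_pow, norm_pow, Complex.norm_real,
    Real.norm_eq_abs] at h1
  have h2 : |δ| ^ V * (|δ| ^ (k + 1 - V) * ‖evA A (Γ.link n).std.bracket‖) = |δ| ^ V * ‖Q‖ := by
    rw [← h1, ← mul_assoc, ← pow_add]
    congr 2
    omega
  have h3 := mul_left_cancel₀ (pow_ne_zero V hδn.ne') h2
  have h4 : |δ| ^ (k + 1 - V) ≤ |δ| ^ 1 := pow_le_pow_of_le_one hδn.le hδle (by omega)
  rw [pow_one] at h4
  have h5 := mul_le_mul_of_nonneg_right h4 (norm_nonneg (evA A (Γ.link n).std.bracket))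
  linarith

/-- `exp (i π (m + x))` is close to `± 1` -/
theorem exp_near (m : ℤ) (x : ℝ) : ‖Complex.exp ((Real.pi * (m + x) : ℝ) * Complex.I) - (-1) ^ m‖ ≤
    Real.pi * |x| := by
  have h1 : Complex.exp ((Real.pi * (m + x) : ℝ) * Complex.I) =
      (-1) ^ m * Complex.exp (Complex.I * ((Real.pi * x : ℝ) : ℂ)) := by
    have h2 : ((-1 : ℂ)) ^ m = Complex.exp ((m * Real.pi : ℝ) * Complex.I) := by
      rw [← Complex.exp_pi_mul_I, ← Complex.exp_int_mul]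
      congr 1
      push_cast
      ring
    rw [h2, ← Complex.exp_add]
    congr 1
    push_cast
    ring
  have h3 : (-1 : ℂ) ^ m * Complex.exp (Complex.I * ((Real.pi * x : ℝ) : ℂ)) - (-1) ^ m =
      (-1) ^ m * (Complex.exp (Complex.I * ((Real.pi * x : ℝ) : ℂ)) - 1) := by ring
  rw [h1, h3, norm_mul, norm_zpow, norm_neg, norm_one, one_zpow, one_mul]
  refine Real.norm_exp_I_mul_ofReal_sub_one_le.trans ?_
  rw [Real.norm_eq_abs, abs_mul, abs_of_pos Real.pi_pos]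

/-- the bracket is large -/
theorem bracket_large (k : ℕ) (K : ℝ) : ∃ C : ℕ, 0 < C ∧ ∀ (Γ : Ribbon k) (P : Finset (Fin k)),
    P ≠ Finset.univ → Γ.comps P + P.card = Γ.verts →
    (∀ e f : Fin k, e ∉ P → f ∉ P → Γ.comps ((Finset.univ.erase e).erase f) = 1) →
    ∀ (n : Fin k → ℤ) (N : ℝ), (C : ℝ) ≤ N →
    (∀ e, ∃ m : ℤ, (Even m ↔ e ∈ P) ∧ |n e - m * N| ≤ N / C) →
      ∃ A : ℂˣ, ‖(A : ℂ)‖ = 1 ∧ ‖evA A (-T 2 - T (-2))‖ ≤ 1 ∧ K < ‖evA A (Γ.link n).std.bracket‖ := by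
  obtain ⟨C, hC⟩ := exists_nat_gt (4 * (4 * k * 4 ^ k + 4 * 4 ^ k + 2 * |K| + 4))
  have hCpos : 0 < (C : ℝ) := lt_trans (by positivity) hC
  refine ⟨C, by exact_mod_cast hCpos, fun Γ P hP hPf hΓ n N hN hn => ?_⟩
  have hN0 : 0 < N := lt_of_lt_of_le hCpos hN
  have hpi := Real.pi_pos
  have hpi4 := Real.pi_le_four
  obtain ⟨φ, hφ⟩ : ∃ φ : ℝ, φ = Real.pi / N := ⟨_, rfl⟩
  have hφ0 : 0 < φ := by rw [hφ]; positivity
  have hφ1 : φ * (4 * k * 4 ^ k + 4 * 4 ^ k + 2 * |K| + 4) ≤ 1 := by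
    rw [hφ, div_mul_eq_mul_div, div_le_one hN0]
    have h1 : 0 ≤ 4 * k * 4 ^ k + 4 * 4 ^ k + 2 * |K| + 4 := by positivity
    have h2 := mul_le_mul_of_nonneg_right hpi4 h1
    linarith
  obtain ⟨A, hA, hAd, hAa⟩ := point φ
  obtain ⟨δ, hδdef⟩ : ∃ δ : ℝ, δ = -2 * Real.sin (φ / 2) := ⟨_, rfl⟩
  rw [← hδdef] at hAd
  have h4k : (1 : ℝ) ≤ 4 ^ k := one_le_pow₀ (by norm_num)
  have hk0 : (0 : ℝ) ≤ k * 4 ^ k := by positivity
  have habsK : 0 ≤ |K| := abs_nonneg K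
  have hφle : φ ≤ 1 / 4 := by nlinarith
  have hsin : 0 < Real.sin (φ / 2) :=
    Real.sin_pos_of_pos_of_lt_pi (by linarith) (by linarith [Real.pi_gt_three])
  have hsin2 : Real.sin (φ / 2) ≤ φ / 2 := Real.sin_le (by linarith)
  have hδ : δ ≠ 0 := by
    rw [hδdef]
    intro h
    nlinarith
  have hδabs : |δ| ≤ φ := by
    rw [hδdef, abs_of_neg (by linarith)]
    linarith
  have hδn : 0 < |δ| := abs_pos.2 hδ
  have hδ1 : |δ| ≤ 1 := by linarith
  have hεC : (k : ℝ) * 4 ^ k * (Real.pi / C) ≤ 1 / 4 := by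
    rw [mul_div_assoc', div_le_iff₀ hCpos]
    have h2 := mul_le_mul_of_nonneg_left hpi4 hk0
    nlinarith
  have hzn : ∀ e, ∃ m : ℤ, (Even m ↔ e ∈ P) ∧
      ‖Complex.exp ((n e * φ : ℝ) * Complex.I) - (-1) ^ m‖ ≤ Real.pi / C := by
    intro e
    obtain ⟨m, hm, hm2⟩ := hn e
    refine ⟨m, hm, ?_⟩
    have h1 : (n e * φ : ℝ) = Real.pi * (m + (n e - m * N) / N) := by
      rw [hφ]
      field_simp
      ring
    rw [h1]
    refine (exp_near m _).trans ?_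
    rw [abs_div, abs_of_pos hN0, div_eq_mul_one_div Real.pi]
    apply mul_le_mul_of_nonneg_left _ hpi.le
    rw [div_le_iff₀ hN0]
    calc |(n e : ℝ) - m * N| ≤ N / C := hm2
      _ = 1 / C * N := by ring
  have hmain := large Γ P hP hPf hΓ n A hA δ hAd (by nlinarith) hδ
    (fun e => Complex.exp ((n e * φ : ℝ) * Complex.I)) (Real.pi / C) (by positivity) hεC (fun e => hAa (n e))
    (fun e => Complex.norm_exp_ofReal_mul_I _) (by
      intro e he
      obtain ⟨m, hm, hm2⟩ := hzn e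
      have hodd : Odd m := by
        rw [← Int.not_even_iff_odd, hm]
        exact he
      rw [hodd.neg_one_zpow, sub_neg_eq_add] at hm2
      exact hm2) (by
      intro e he
      obtain ⟨m, hm, hm2⟩ := hzn e
      rw [(hm.2 he).neg_one_zpow] at hm2
      exact hm2)
  refine ⟨A, hA, ?_, ?_⟩
  · rw [show evA A (-T 2 - T (-2)) = (δ : ℂ) from hAd, Complex.norm_real, Real.norm_eq_abs]
    exact hδ1
  · have h1 : |δ| * K < 1 / 2 := by
      have h2 : |δ| * K ≤ |δ| * |K| := mul_le_mul_of_nonneg_left (le_abs_self K) hδn.le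
      have h3 : |δ| * |K| ≤ φ * |K| := mul_le_mul_of_nonneg_right hδabs habsK
      have h4 : 0 ≤ φ * (4 * k * 4 ^ k + 4 * 4 ^ k) := by positivity
      have h5 : φ * (4 * k * 4 ^ k + 4 * 4 ^ k + 2 * |K| + 4) =
        φ * (4 * k * 4 ^ k + 4 * 4 ^ k) + 2 * (φ * |K|) + 4 * φ := by ring
      linarith
    exact lt_of_mul_lt_mul_left (lt_of_lt_of_le h1 hmain) hδn.le

end Pool.Agent.J4.H92.NU
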