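import Mathlib

/-!
# A positivity property of matroids

`I E r x` is the sum over the independent sets `S ⊆ E` of `∏_{e ∈ E \ S} (x e - 1)`.  If no two elements of
`E` lie in a cocircuit with at most two elements then `I E r (-1) ≠ 0`.
-/

set_option autoImplicit false

namespace Pool.Agent.J4.H92.NU

variable {ι : Type} [DecidableEq ι]

open Classical in
/-- the sum over the subsets `S` of `G` with the property `p` -/
noncomputable def K (G : Finset ι) (p : Finset ι → Prop) (x : ι → ℝ) : ℝ :=
  ∑ S ∈ G.powerset, if p S then ∏ e ∈ G \ S, (x e - 1) else 0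

theorem K_congr (G : Finset ι) (p q : Finset ι → Prop) (x y : ι → ℝ) (h : ∀ S ⊆ G, (p S ↔ q S))
    (hx : ∀ e ∈ G, x e = y e) : K G p x = K G q y := by
  unfold K
  refine Finset.sum_congr rfl fun S hS => ?_
  rw [Finset.mem_powerset] at hS
  have h1 : ∏ e ∈ G \ S, (x e - 1) = ∏ e ∈ G \ S, (y e - 1) :=
    Finset.prod_congr rfl fun e he => by rw [hx e (Finset.mem_sdiff.1 he).1]
  rw [h1]
  by_cases hp : p S
  · rw [if_pos hp, if_pos ((h S hS).1 hp)]
  · rw [if_neg hp, if_neg (fun hq => hp ((h S hS).2 hq))]

theorem K_insert (G : Finset ι) (p : Finset ι → Prop) (x : ι → ℝ) (e : ι) (he : e ∉ G) :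
    K (insert e G) p x = (x e - 1) * K G p x + K G (fun S => p (insert e S)) x := by
  unfold K
  rw [Finset.sum_powerset_insert he, Finset.mul_sum]
  congr 1
  · refine Finset.sum_congr rfl fun S hS => ?_
    rw [Finset.mem_powerset] at hS
    have heS : e ∉ S := fun h => he (hS h)
    have h1 : insert e G \ S = insert e (G \ S) := Finset.insert_sdiff_of_notMem _ heS
    have h2 : e ∉ G \ S := fun h => he (Finset.mem_sdiff.1 h).1
    split_ifs with hp
    · rw [h1, Finset.prod_insert h2]
    · rw [mul_zero]
  · refine Finset.sum_congr rfl fun S hS => ?_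
    rw [Finset.mem_powerset] at hS
    have h1 : insert e G \ insert e S = G \ S := by
      ext a
      simp only [Finset.mem_sdiff, Finset.mem_insert, not_or]
      constructor
      · rintro ⟨h | h, h2, h3⟩
        · exact absurd h h2
        · exact ⟨h, h3⟩
      · rintro ⟨h, h2⟩
        exact ⟨Or.inr h, fun h3 => he (h3 ▸ h), h2⟩
    rw [h1]

theorem K_false (G : Finset ι) (p : Finset ι → Prop) (x : ι → ℝ) (h : ∀ S ⊆ G, ¬ p S) : K G p x = 0 := by
  unfold K
  refine Finset.sum_eq_zero fun S hS => ?_
  rw [if_neg (h S (Finset.mem_powerset.1 hS))]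

/-- rank functions of matroids -/
structure IsRk (r : Finset ι → ℕ) : Prop where
  empty : r ∅ = 0
  up : ∀ S e, r S ≤ r (insert e S)
  step : ∀ S e, r (insert e S) ≤ r S + 1
  cl : ∀ S T e, S ⊆ T → r (insert e S) = r S → r (insert e T) = r T

namespace IsRk

variable {r : Finset ι → ℕ}

theorem le_card (h : IsRk r) (S : Finset ι) : r S ≤ S.card := by
  induction S using Finset.induction_on with
  | empty => rw [h.empty]; exact Nat.zero_le _
  | insert e S he ih =>
    rw [Finset.card_insert_of_notMem he]
    exact (h.step S e).trans (Nat.succ_le_succ ih)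

theorem cases (h : IsRk r) (S : Finset ι) (e : ι) : r (insert e S) = r S ∨ r (insert e S) = r S + 1 := by
  have := h.up S e
  have := h.step S e
  omega

/-- the contraction -/
def con (r : Finset ι → ℕ) (e : ι) (S : Finset ι) : ℕ := r (insert e S) - 1

theorem one_le (h : IsRk r) (e : ι) (he : r {e} = 1) (S : Finset ι) : 1 ≤ r (insert e S) := by
  induction S using Finset.induction_on with
  | empty =>
    have : (insert e ∅ : Finset ι) = {e} := rfl
    rw [this, he]
  | insert a S _ ih =>
    rw [Finset.insert_comm]
    exact ih.trans (h.up _ a)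

theorem con_isRk (h : IsRk r) (e : ι) (he : r {e} = 1) : IsRk (con r e) := by
  refine ⟨?_, fun S a => ?_, fun S a => ?_, fun S T a hST hS => ?_⟩
  · show r (insert e ∅) - 1 = 0
    have : (insert e ∅ : Finset ι) = {e} := rfl
    rw [this, he]
  · show r (insert e S) - 1 ≤ r (insert e (insert a S)) - 1
    rw [Finset.insert_comm]
    exact Nat.sub_le_sub_right (h.up _ a) 1
  · show r (insert e (insert a S)) - 1 ≤ r (insert e S) - 1 + 1
    rw [Finset.insert_comm]
    have := h.step (insert e S) a
    have := h.one_le e he S
    omega
  · change r (insert e (insert a S)) - 1 = r (insert e S) - 1 at hS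
    show r (insert e (insert a T)) - 1 = r (insert e T) - 1
    rw [Finset.insert_comm] at hS ⊢
    have h1 := h.one_le e he S
    have h2 := h.up (insert e S) a
    rw [h.cl (insert e S) (insert e T) a (Finset.insert_subset_insert _ hST) (by omega)]

end IsRk

/-- the sum over the independent subsets -/
noncomputable def I (E : Finset ι) (r : Finset ι → ℕ) (x : ι → ℝ) : ℝ := K E (fun S => r S = S.card) x

open IsRk

theorem I_con (G : Finset ι) (r : Finset ι → ℕ) (h : IsRk r) (x : ι → ℝ) (e : ι) (he : e ∉ G)
    (h1 : r {e} = 1) : K G (fun S => r (insert e S) = (insert e S).card) x = I G (con r e) x := by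
  refine K_congr _ _ _ _ _ (fun S hS => ?_) (fun _ _ => rfl)
  rw [Finset.card_insert_of_notMem (fun h => he (hS h))]
  have := h.one_le e h1 S
  show _ ↔ r (insert e S) - 1 = S.card
  omega

theorem I_insert_nonloop (G : Finset ι) (r : Finset ι → ℕ) (h : IsRk r) (x : ι → ℝ) (e : ι) (he : e ∉ G)
    (h1 : r {e} = 1) : I (insert e G) r x = (x e - 1) * I G r x + I G (con r e) x := by
  rw [← I_con G r h x e he h1]
  exact K_insert G _ x e he

theorem I_insert_loop (G : Finset ι) (r : Finset ι → ℕ) (h : IsRk r) (x : ι → ℝ) (e : ι) (he : e ∉ G)
    (h1 : r {e} = 0) : I (insert e G) r x = (x e - 1) * I G r x := by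
  have h2 := K_insert G (fun S => r S = S.card) x e he
  rw [K_false G (fun S => r (insert e S) = (insert e S).card), add_zero] at h2
  · exact h2
  · intro S hS h3
    rw [Finset.card_insert_of_notMem (fun h => he (hS h))] at h3
    have h4 := h.cl ∅ S e (Finset.empty_subset _) (by
      have : (insert e ∅ : Finset ι) = {e} := rfl
      rw [this, h1, h.empty])
    have := h.le_card S
    omega

/-- two elements in series -/
theorem I_series (G : Finset ι) (r : Finset ι → ℕ) (h : IsRk r) (x y : ι → ℝ) (e f : ι) (he : e ∉ G)
    (hf : f ∉ G) (hef : e ≠ f) (h1 : r {f} = 1) (hre : r (insert e G) = r G + 1)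
    (hrf : r (insert f G) = r G + 1) (hy : ∀ a ∈ G, y a = x a) (hye : y e = x e * x f) :
    I (insert f (insert e G)) r x = I (insert e G) (con r f) y := by
  have hfe : f ∉ insert e G := by
    rw [Finset.mem_insert, not_or]
    exact ⟨fun h => hef h.symm, hf⟩
  -- independence of `S ∪ e`, `S ∪ f`
  have key : ∀ a, a ∉ G → r (insert a G) = r G + 1 → ∀ S ⊆ G,
      (r (insert a S) = (insert a S).card ↔ r S = S.card) := by
    intro a ha hra S hS
    rw [Finset.card_insert_of_notMem (fun h => ha (hS h))]
    rcases h.cases S a with h2 | h2
    · have := h.cl S G a hS h2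
      omega
    · omega
  have e1 : I (insert f (insert e G)) r x = (x f - 1) * ((x e - 1) * I G r x + I G r x) +
      ((x e - 1) * I G r x + K G (fun S => r (insert f (insert e S)) = (insert f (insert e S)).card) x) := by
    unfold I
    rw [K_insert _ _ _ _ hfe, K_insert _ _ _ _ he, K_insert _ _ _ _ he]
    have k1 : K G (fun S => r (insert e S) = (insert e S).card) x = K G (fun S => r S = S.card) x :=
      K_congr _ _ _ _ _ (key e he hre) (fun _ _ => rfl)
    have k2 : K G (fun S => r (insert f S) = (insert f S).card) x = K G (fun S => r S = S.card) x :=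
      K_congr _ _ _ _ _ (key f hf hrf) (fun _ _ => rfl)
    rw [k1, k2]
  have e2 : I (insert e G) (con r f) y = (x e * x f - 1) * I G r x +
      K G (fun S => r (insert f (insert e S)) = (insert f (insert e S)).card) x := by
    rw [← I_con (insert e G) r h y f hfe h1, K_insert _ _ _ _ he, hye]
    congr 1
    · congr 1
      exact K_congr _ _ _ _ _ (key f hf hrf) hy
    · exact K_congr _ _ _ _ _ (fun _ _ => Iff.rfl) hy
  rw [e1, e2]
  ring

/-- the sign -/
noncomputable def sgn (E : Finset ι) (r : Finset ι → ℕ) : ℝ := (-1) ^ (E.card - r E)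

theorem nonneg (n : ℕ) : ∀ (E : Finset ι) (r : Finset ι → ℕ) (x : ι → ℝ), E.card = n → IsRk r →
    (∀ e ∈ E, r (E.erase e) = r E) → (∀ e ∈ E, -1 ≤ x e ∧ x e ≤ 1) → 0 ≤ sgn E r * I E r x := by
  induction n with
  | zero =>
    intro E r x hE hr _ _
    rw [Finset.card_eq_zero] at hE
    subst hE
    unfold sgn I K
    simp [hr.empty]
  | succ n ih =>
    intro E r x hE hr hcol hx
    by_cases hser : ∃ e ∈ E, ∃ f ∈ E, e ≠ f ∧ r ((E.erase e).erase f) ≠ r E
    · obtain ⟨e, he, f, hf, hef, hne⟩ := hser
      set G := (E.erase e).erase f with hG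
      have heG : e ∉ G := by simp [hG]
      have hfG : f ∉ G := by simp [hG]
      have hfE : f ∈ E.erase e := Finset.mem_erase.2 ⟨hef.symm, hf⟩
      have hE1 : insert f G = E.erase e := Finset.insert_erase hfE
      have hE2 : insert e G = E.erase f := by
        rw [hG, Finset.erase_right_comm, Finset.insert_erase (Finset.mem_erase.2 ⟨hef, he⟩)]
      have hE3 : insert f (insert e G) = E := by
        rw [hE2, Finset.insert_erase hf]
      have hrf : r (insert f G) = r G + 1 := by
        rcases hr.cases G f with h1 | h1
        · rw [hE1, hcol e he] at h1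
          exact absurd h1.symm hne
        · exact h1
      have hre : r (insert e G) = r G + 1 := by
        rcases hr.cases G e with h1 | h1
        · rw [hE2, hcol f hf] at h1
          exact absurd h1.symm hne
        · exact h1
      have hf1 : r {f} = 1 := by
        have h1 := hr.cases ∅ f
        have h2 : (insert f ∅ : Finset ι) = {f} := rfl
        rw [h2, hr.empty] at h1
        rcases h1 with h1 | h1
        · have h3 := hr.cl ∅ G f (Finset.empty_subset _) (by rw [h2, h1, hr.empty])
          omega
        · omega
      have hrE : r E = r G + 1 := by rw [← hcol e he, ← hE1, hrf]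
      obtain ⟨y, hy⟩ : ∃ y : ι → ℝ, y = fun a => if a = e then x e * x f else x a := ⟨_, rfl⟩
      have hye : y e = x e * x f := by rw [hy]; simp
      have hyG : ∀ a ∈ G, y a = x a := by
        intro a ha
        have : a ≠ e := fun h => heG (h ▸ ha)
        rw [hy]
        simp [this]
      have hI := I_series G r hr x y e f heG hfG hef hf1 hre hrf hyG hye
      rw [hE3] at hI
      rw [hI]
      have hcon : con r f (insert e G) = r E - 1 := by
        show r (insert f (insert e G)) - 1 = _
        rw [hE3]
      have hcard : (insert e G).card = n := by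
        rw [hE2, Finset.card_erase_of_mem hf, hE]
        rfl
      have hs : sgn E r = sgn (insert e G) (con r f) := by
        unfold sgn
        rw [hcon, hcard, hE]
        congr 1
        omega
      rw [hs]
      refine ih _ _ _ hcard (hr.con_isRk f hf1) ?_ ?_
      · intro a ha
        rw [hcon]
        show r (insert f ((insert e G).erase a)) - 1 = r E - 1
        have haf : a ≠ f := by
          rintro rfl
          rcases Finset.mem_insert.1 ha with h1 | h1
          · exact hef h1.symm
          · exact hfG h1
        have haE : a ∈ E := by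
          rw [← hE3]
          exact Finset.mem_insert_of_mem ha
        have : insert f ((insert e G).erase a) = E.erase a := by
          rw [← hE3, Finset.erase_insert_of_ne (Ne.symm haf)]
        rw [this, hcol a haE]
      · intro a ha
        rcases Finset.mem_insert.1 ha with rfl | ha
        · rw [hye]
          have h1 := hx a he
          have h2 := hx f hf
          have h3 : |x a * x f| ≤ 1 := by
            rw [abs_mul]
            exact mul_le_one₀ (abs_le.2 h1) (abs_nonneg _) (abs_le.2 h2)
          exact abs_le.1 h3
        · rw [hyG a ha]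
          exact hx a (Finset.mem_of_mem_erase (Finset.mem_of_mem_erase ha))
    · push Not at hser
      obtain ⟨e, he⟩ : E.Nonempty := by
        rw [← Finset.card_pos, hE]
        omega
      have heG : e ∉ E.erase e := Finset.notMem_erase e E
      have hEG : insert e (E.erase e) = E := Finset.insert_erase he
      have hcard : (E.erase e).card = n := by
        rw [Finset.card_erase_of_mem he, hE]
        rfl
      have hcol' : ∀ f ∈ E.erase e, r ((E.erase e).erase f) = r (E.erase e) := by
        intro f hf
        rw [hcol e he]
        exact hser e he f (Finset.mem_of_mem_erase hf) (Finset.ne_of_mem_erase hf).symm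
      have hx' : ∀ a ∈ E.erase e, -1 ≤ x a ∧ x a ≤ 1 := fun a ha => hx a (Finset.mem_of_mem_erase ha)
      have hrn := hr.le_card (E.erase e)
      rw [hcol e he, hcard] at hrn
      have hs1 : sgn E r = - sgn (E.erase e) r := by
        unfold sgn
        rw [hcol e he, hE, hcard, Nat.succ_sub hrn, pow_succ]
        ring
      have h3 : 0 ≤ (1 - x e) * (sgn (E.erase e) r * I (E.erase e) r x) :=
        mul_nonneg (by linarith [(hx e he).2]) (ih _ _ _ hcard hr hcol' hx')
      have h1 := hr.cases ∅ e
      have h2 : (insert e ∅ : Finset ι) = {e} := rfl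
      rw [h2, hr.empty] at h1
      rcases h1 with h1 | h1
      · have hI := I_insert_loop (E.erase e) r hr x e heG h1
        rw [hEG] at hI
        rw [hI, hs1]
        nlinarith
      · have hI := I_insert_nonloop (E.erase e) r hr x e heG h1
        rw [hEG] at hI
        have hcon : con r e (E.erase e) = r E - 1 := by
          show r (insert e (E.erase e)) - 1 = _
          rw [hEG]
        have hrE1 : 1 ≤ r E := by
          have := hr.one_le e h1 (E.erase e)
          rwa [hEG] at this
        have hs2 : sgn E r = sgn (E.erase e) (con r e) := by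
          unfold sgn
          rw [hcon, hE, hcard]
          congr 1
          omega
        have h4 := ih (E.erase e) (con r e) x hcard (hr.con_isRk e h1) (by
          intro f hf
          rw [hcon]
          show r (insert e ((E.erase e).erase f)) - 1 = r E - 1
          have : insert e ((E.erase e).erase f) = E.erase f := by
            rw [Finset.erase_right_comm, Finset.insert_erase]
            exact Finset.mem_erase.2 ⟨(Finset.ne_of_mem_erase hf).symm, he⟩
          rw [this, hcol f (Finset.mem_of_mem_erase hf)]) hx'
        rw [← hs2] at h4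
        rw [hI, mul_add]
        have h5 : sgn E r * ((x e - 1) * I (E.erase e) r x) =
            (1 - x e) * (sgn (E.erase e) r * I (E.erase e) r x) := by
          rw [hs1]
          ring
        rw [h5]
        linarith

theorem pos (n : ℕ) : ∀ (E : Finset ι) (r : Finset ι → ℕ), E.card = n → IsRk r →
    (∀ e ∈ E, ∀ f ∈ E, r ((E.erase e).erase f) = r E) → 0 < sgn E r * I E r (fun _ => -1) := by
  induction n with
  | zero =>
    intro E r hE hr _
    rw [Finset.card_eq_zero] at hE
    subst hE
    unfold sgn I K
    rw [Finset.powerset_empty, Finset.sum_singleton, if_pos (show r ∅ = (∅ : Finset ι).card by rw [hr.empty]; rfl)]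
    simp
  | succ n ih =>
    intro E r hE hr hC
    obtain ⟨e, he⟩ : E.Nonempty := by
      rw [← Finset.card_pos, hE]
      omega
    have hcol : ∀ e ∈ E, r (E.erase e) = r E := by
      intro e he
      have := hC e he e he
      rwa [Finset.erase_eq_of_notMem (Finset.notMem_erase e E)] at this
    have heG : e ∉ E.erase e := Finset.notMem_erase e E
    have hEG : insert e (E.erase e) = E := Finset.insert_erase he
    have hcard : (E.erase e).card = n := by
      rw [Finset.card_erase_of_mem he, hE]
      rfl
    have hrn := hr.le_card (E.erase e)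
    rw [hcol e he, hcard] at hrn
    have hs1 : sgn E r = - sgn (E.erase e) r := by
      unfold sgn
      rw [hcol e he, hE, hcard, Nat.succ_sub hrn, pow_succ]
      ring
    have h1 := hr.cases ∅ e
    have h2 : (insert e ∅ : Finset ι) = {e} := rfl
    rw [h2, hr.empty] at h1
    rcases h1 with h1 | h1
    · have hI := I_insert_loop (E.erase e) r hr (fun _ => -1) e heG h1
      rw [hEG] at hI
      have hl : ∀ S, r (insert e S) = r S := fun S =>
        hr.cl ∅ S e (Finset.empty_subset _) (by rw [h2, h1, hr.empty])
      have h3 := ih (E.erase e) r hcard hr (by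
        intro f hf g hg
        have h5 : e ∉ ((E.erase e).erase f).erase g := by simp
        rw [hcol e he, ← hC f (Finset.mem_of_mem_erase hf) g (Finset.mem_of_mem_erase hg), ← hl]
        congr 1
        rw [Finset.erase_right_comm (a := e) (b := f), Finset.erase_right_comm (a := e) (b := g),
          Finset.insert_erase]
        exact Finset.mem_erase.2 ⟨(Finset.ne_of_mem_erase hg).symm,
          Finset.mem_erase.2 ⟨(Finset.ne_of_mem_erase hf).symm, he⟩⟩)
      rw [hI, hs1]
      nlinarith
    · have hI := I_insert_nonloop (E.erase e) r hr (fun _ => -1) e heG h1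
      rw [hEG] at hI
      have hcon : con r e (E.erase e) = r E - 1 := by
        show r (insert e (E.erase e)) - 1 = _
        rw [hEG]
      have hrE1 : 1 ≤ r E := by
        have := hr.one_le e h1 (E.erase e)
        rwa [hEG] at this
      have hs2 : sgn E r = sgn (E.erase e) (con r e) := by
        unfold sgn
        rw [hcon, hE, hcard]
        congr 1
        omega
      have h4 := ih (E.erase e) (con r e) hcard (hr.con_isRk e h1) (by
        intro f hf g hg
        rw [hcon]
        show r (insert e (((E.erase e).erase f).erase g)) - 1 = r E - 1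
        have : insert e (((E.erase e).erase f).erase g) = (E.erase f).erase g := by
          rw [Finset.erase_right_comm (a := e) (b := f), Finset.erase_right_comm (a := e) (b := g),
            Finset.insert_erase]
          exact Finset.mem_erase.2 ⟨(Finset.ne_of_mem_erase hg).symm,
            Finset.mem_erase.2 ⟨(Finset.ne_of_mem_erase hf).symm, he⟩⟩
        rw [this, hC f (Finset.mem_of_mem_erase hf) g (Finset.mem_of_mem_erase hg)])
      rw [← hs2] at h4
      have h6 := nonneg n (E.erase e) r (fun _ => -1) hcard hr (by
        intro f hf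
        rw [hcol e he]
        exact hC e he f (Finset.mem_of_mem_erase hf)) (fun _ _ => ⟨le_rfl, by norm_num⟩)
      rw [hI, mul_add]
      have h5 : sgn E r * (((fun _ => (-1 : ℝ)) e - 1) * I (E.erase e) r (fun _ => -1)) =
          2 * (sgn (E.erase e) r * I (E.erase e) r (fun _ => -1)) := by
        rw [hs1]
        ring
      rw [h5]
      linarith

/-- the values `1` on an independent set and `-1` outside -/
theorem pos_of_indep (n : ℕ) : ∀ (E P : Finset ι) (r : Finset ι → ℕ) (s : ι → ℝ), P.card = n → P ⊆ E →
    IsRk r → (∀ e ∈ P, s e = 1) → (∀ e ∈ E, e ∉ P → s e = -1) → r P = P.card →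
    (∀ e ∈ E, ∀ f ∈ E, e ∉ P → f ∉ P → r ((E.erase e).erase f) = r E) → 0 < sgn E r * I E r s := by
  induction n with
  | zero =>
    intro E P r s hP _ hr _ hs _ hC
    rw [Finset.card_eq_zero] at hP
    subst hP
    have h1 := pos _ E r rfl hr (fun e he f hf => hC e he f hf (Finset.notMem_empty _) (Finset.notMem_empty _))
    have h2 : I E r s = I E r (fun _ => -1) :=
      K_congr _ _ _ _ _ (fun _ _ => Iff.rfl) (fun e he => hs e he (Finset.notMem_empty _))
    rwa [h2]
  | succ n ih =>
    intro E P r s hP hPE hr hs1 hs2 hrP hC
    obtain ⟨e, heP⟩ : P.Nonempty := by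
      rw [← Finset.card_pos, hP]
      omega
    have he := hPE heP
    have heG : e ∉ E.erase e := Finset.notMem_erase e E
    have hEG : insert e (E.erase e) = E := Finset.insert_erase he
    have hPG : insert e (P.erase e) = P := Finset.insert_erase heP
    have hcP : (P.erase e).card = n := by
      rw [Finset.card_erase_of_mem heP, hP]
      rfl
    have h1 : r {e} = 1 := by
      have h1 := hr.cases ∅ e
      have h2 : (insert e ∅ : Finset ι) = {e} := rfl
      rw [h2, hr.empty] at h1
      rcases h1 with h1 | h1
      · have h3 := hr.cl ∅ (P.erase e) e (Finset.empty_subset _) (by rw [h2, h1, hr.empty])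
        rw [hPG, hrP] at h3
        have := hr.le_card (P.erase e)
        omega
      · omega
    have hI := I_insert_nonloop (E.erase e) r hr s e heG h1
    rw [hEG, hs1 e heP, sub_self, zero_mul, zero_add] at hI
    have hcon : con r e (E.erase e) = r E - 1 := by
      show r (insert e (E.erase e)) - 1 = _
      rw [hEG]
    have hrE1 : 1 ≤ r E := by
      have := hr.one_le e h1 (E.erase e)
      rwa [hEG] at this
    have hcE : (E.erase e).card + 1 = E.card := Finset.card_erase_add_one he
    have hs3 : sgn E r = sgn (E.erase e) (con r e) := by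
      unfold sgn
      rw [hcon]
      congr 1
      omega
    rw [hI, hs3]
    refine ih (E.erase e) (P.erase e) (con r e) s hcP (Finset.erase_subset_erase e hPE) (hr.con_isRk e h1)
      (fun a ha => hs1 a (Finset.mem_of_mem_erase ha)) (fun a ha haP => ?_) ?_ ?_
    · have hae : a ≠ e := Finset.ne_of_mem_erase ha
      exact hs2 a (Finset.mem_of_mem_erase ha) (fun h => haP (Finset.mem_erase.2 ⟨hae, h⟩))
    · show r (insert e (P.erase e)) - 1 = _
      rw [hPG, hrP, hP, hcP]
      rfl
    · intro f hf g hg hfP hgP
      have hfe : f ≠ e := Finset.ne_of_mem_erase hf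
      have hge : g ≠ e := Finset.ne_of_mem_erase hg
      rw [hcon]
      show r (insert e (((E.erase e).erase f).erase g)) - 1 = r E - 1
      have : insert e (((E.erase e).erase f).erase g) = (E.erase f).erase g := by
        rw [Finset.erase_right_comm (a := e) (b := f), Finset.erase_right_comm (a := e) (b := g),
          Finset.insert_erase]
        exact Finset.mem_erase.2 ⟨hge.symm, Finset.mem_erase.2 ⟨hfe.symm, he⟩⟩
      rw [this, hC f (Finset.mem_of_mem_erase hf) g (Finset.mem_of_mem_erase hg)
        (fun h => hfP (Finset.mem_erase.2 ⟨hfe, h⟩)) (fun h => hgP (Finset.mem_erase.2 ⟨hge, h⟩))]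

end Pool.Agent.J4.H92.NU
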