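import Pool.Agent.H891R2.MT.Fin
import Pool.Agent.J4.H92.NU.Pos

/-!
# The lowest terms of the state sum of a ribbon graph
-/

set_option autoImplicit false

namespace Pool.Agent.J4.H92.NU

open Finset LaurentPolynomial Pool.Agent.H891R2.Jones Pool.Agent.H891R2.MT

variable {k : ℕ}

/-- the rank of a set of edges -/
noncomputable def rk (Γ : Ribbon k) (S : Finset (Fin k)) : ℕ := Γ.verts - Γ.comps S

theorem comps_le (Γ : Ribbon k) (S : Finset (Fin k)) : Γ.comps S ≤ Γ.verts := by
  unfold Ribbon.comps Ribbon.verts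
  refine Nat.card_le_card_of_surjective
    (Quot.lift (fun x => Quot.mk _ x) (fun x y h => Quot.sound (Or.inl h))) ?_
  intro q
  induction q using Quot.ind with
  | mk x => exact ⟨Quot.mk _ x, rfl⟩

theorem rk_isRk (Γ : Ribbon k) : IsRk (rk Γ) := by
  refine ⟨?_, fun S e => ?_, fun S e => ?_, fun S T e hST h => ?_⟩
  · unfold rk
    rw [T3c.comps_empty]
    exact Nat.sub_self _
  · unfold rk
    rcases T3a.comps_insert Γ S e with ⟨_, h⟩ | ⟨_, h⟩ <;> omega
  · unfold rk
    rcases T3a.comps_insert Γ S e with ⟨_, h⟩ | ⟨_, h⟩ <;> omega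
  · unfold rk at h ⊢
    have hv := comps_le Γ S
    rcases T3a.comps_insert Γ S e with ⟨h1, h2⟩ | ⟨_, h2⟩
    · have h3 : Quot.mk (T3a.rel Γ T) (e, false) = Quot.mk (T3a.rel Γ T) (e, true) := by
        have := congrArg (Quot.lift (Quot.mk (T3a.rel Γ T))
          (fun x y h => Quot.sound (T3a.rel_mono Γ hST x y h)) : Quot (T3a.rel Γ S) → Quot (T3a.rel Γ T)) h1
        exact this
      rcases T3a.comps_insert Γ T e with ⟨_, h4⟩ | ⟨h4, _⟩
      · rw [h4]
      · exact absurd h3 h4
    · omega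

/-- the number of curves changes by one -/
theorem curves_insert (Γ : Ribbon k) (S : Finset (Fin k)) (e : Fin k) (he : e ∉ S) :
    Γ.curves (insert e S) = Γ.curves S + 1 ∨ Γ.curves (insert e S) + 1 = Γ.curves S := by
  rw [T2.curves_cyc, T2.curves_cyc, T2.aS_insert S e he, mul_assoc]
  have hne : ((e, false) : Fin k × Bool) ≠ (e, true) := by simp
  obtain ⟨h1, h2⟩ := T2.cyc_swap (T2.aS S * Γ.rot) (e, false) (e, true) hne
  by_cases h : (T2.aS S * Γ.rot).SameCycle (e, false) (e, true)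
  · left
    exact h1 h
  · right
    exact h2 h

theorem curves_empty (Γ : Ribbon k) : Γ.curves ∅ = Γ.verts := by
  rw [T2.curves_cyc]
  have : T2.aS (∅ : Finset (Fin k)) = 1 := by
    ext1 x; rw [T2.aS_apply]; simp
  rw [this, one_mul]; rfl

theorem verts_le (Γ : Ribbon k) (S : Finset (Fin k)) : Γ.verts ≤ Γ.curves S + S.card := by
  induction S using Finset.induction_on with
  | empty => rw [curves_empty]; exact Nat.le_add_right _ _
  | insert e S he ih =>
    rw [Finset.card_insert_of_notMem he]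
    rcases curves_insert Γ S e he with h | h <;> omega

theorem comps_le_curves (Γ : Ribbon k) (S : Finset (Fin k)) : Γ.comps S ≤ Γ.curves S := by
  rw [T2.curves_cyc]
  unfold Ribbon.comps T2.cyc
  refine Nat.card_le_card_of_surjective
    (Quot.lift (fun x => Quot.mk (T2.RC Γ S) x) (fun x y h => T2.RC_of_cyc Γ S x y ?_)) ?_
  · exact ⟨1, by simpa using h⟩
  · intro q
    induction q using Quot.ind with
    | mk x => exact ⟨Quot.mk _ x, rfl⟩

/-- the minimal terms belong to the forests -/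
theorem min_iff (Γ : Ribbon k) (S : Finset (Fin k)) :
    Γ.curves S + S.card = Γ.verts ↔ rk Γ S = S.card := by
  have h1 := comps_le Γ S
  have h2 := comps_le_curves Γ S
  have h3 := (rk_isRk Γ).le_card S
  have h4 := verts_le Γ S
  have h5 := T2.defect_mono Γ ∅ S
  rw [Finset.union_empty, T2.defect_empty] at h5
  unfold T2.defect at h5
  unfold rk at h3 ⊢
  constructor
  · intro h
    omega
  · intro h
    omega

/-- the state sum -/
theorem state_sum (Γ : Ribbon k) (hk : 0 < k) (n : Fin k → ℤ) :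
    (-T 2 - T (-2)) ^ (k + 1) * (Γ.link n).std.bracket =
      ∑ S : Finset (Fin k), (∏ e ∈ S, (T (n e) : ℤ[T;T⁻¹])) *
        (∏ e ∈ Sᶜ, (C ((-1) ^ (n e).natAbs) * T (-3 * n e) - T (n e))) *
        (-T 2 - T (-2)) ^ (Γ.curves S + S.card) := by
  have hne : Nonempty (Ribbon.Pt n) := ⟨⟨⟨0, hk⟩, 0, true⟩⟩
  apply T6.eq_of_ev
  intro N hN
  have hN0 : N ≠ 0 := by omega
  have hN1 : (N : ℂ) ≠ 0 := by exact_mod_cast hN0
  have hA := Ar_ne N hN
  have hd : ev N hN (-T 2 - T (-2)) = (N : ℂ) := by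
    rw [map_sub, map_neg, ev_T, ev_T, Ar_d N hN, inv_pow]
    rfl
  have e1 := transfer Γ n hA hN0 (Ar_d N hN)
  rw [← ev_bracket N hN] at e1
  rw [map_mul, map_pow, hd, pow_succ, mul_assoc, e1, map_sum, Finset.mul_sum]
  refine Finset.sum_congr rfl fun S _ => ?_
  rw [map_mul, map_mul, map_pow, hd, map_prod, map_prod]
  have h1 : ∀ e, ev N hN (C ((-1) ^ (n e).natAbs) * T (-3 * n e) - T (n e)) = (N : ℂ) * gg (Ar N) N (n e) := by
    intro e
    unfold gg
    rw [mul_div_cancel₀ _ hN1, map_sub, map_mul, ev_T, ev_T]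
    congr 1
    have h2 : (-(Ar N)⁻¹ ^ 3) ^ (n e) = (-1) ^ (n e).natAbs * ((Ar N)⁻¹ ^ 3) ^ (n e) := neg_zpow_natAbs _
    rw [h2]
    congr 1
    · rw [map_pow, map_neg, map_one, map_pow, map_neg, map_one]
    · rw [zpow_mul]
      congr 1
      rw [inv_pow, zpow_neg]
      rfl
  simp only [h1, ev_T]
  rw [Finset.prod_mul_distrib, Finset.prod_const, pow_add]
  have h3 : (N : ℂ) ^ k = (N : ℂ) ^ (Sᶜ).card * (N : ℂ) ^ S.card := by
    rw [← pow_add]
    congr 1
    have := Finset.card_compl_add_card S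
    rw [Fintype.card_fin] at this
    omega
  rw [h3]
  ring

end Pool.Agent.J4.H92.NU
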